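import Pool.Agent.H302Z.CaB

set_option autoImplicit false

namespace Pool.Agent.Results.MP_b4a25c_gt.ACounterexample

open Pool.Agent.H302Z.Ca

/-- There is a six-dimensional Carnot group `N` of step two (first layer of dimension four, with
the maximum norm) that has no Heisenberg factor, indeed no nontrivial direct product decomposition
at all, and a bijection of `N` that is biLipschitz for the (finite) Carnot distance and does not
permute the left cosets of `N₂ = [N, N]`. -/
theorem result : ∃ S : Step2 ((ℝ × ℝ) × (ℝ × ℝ)) (ℝ × ℝ),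
    (∀ (n : ℕ) (G : Type) [Group G], IsEmpty (S.Grp ≃* (heis n).Grp × G)) ∧
    (∀ (A G : Type) [Group A] [Group G],
      Nonempty (S.Grp ≃* A × G) → Subsingleton A ∨ Subsingleton G) ∧
    (∀ g h : S.Grp, S.dist g h < ⊤) ∧
    ∃ F : S.Grp ≃ S.Grp, S.BiLipschitz F ∧ ¬ PermutesCosets F (commutator S.Grp) :=
  ⟨S0, fun n G _ => no_heis n G, fun A G _ _ ⟨ψ⟩ => indecomposable A G ψ, dist_lt_top,
    F0, F0_bilip, F0_not⟩

end Pool.Agent.Results.MP_b4a25c_gt.ACounterexample
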